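import Pool.Agent.H10.XR.Str
import Pool.Agent.H10.XR.Ser

/-!
# The discrete X-ray transform outside a disc, from the lines perpendicular to lattice vectors

Uniqueness for functions of polynomial (stretched exponential) decay whose difference is, on every
circle around the origin, comparable to its values at the points of small gcd; in particular for
radial functions.
-/

set_option autoImplicit false

namespace Pool.Agent.Results.MP_4bc625_an.ComparableOnCircles

open Pool.Agent.H10.XR

/-- `h` is radial: its value depends on the norm only. -/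
def Radial (h : ℤ × ℤ → ℂ) : Prop := ∀ x y, nsq x = nsq y → h x = h y

/-- `gcd z ≤ lam |z|` at all points `z` of `A_α` with `h z ≠ 0`. -/
def SmallGcd (α : ℝ) (lam : ℝ → ℝ) (h : ℤ × ℤ → ℂ) : Prop :=
  ∀ z, Outside α z → h z ≠ 0 → (cont z : ℝ) ≤ lam (Real.sqrt (nsq z))

/-- For every `z ≠ 0` of `A_α` there is a point `y` with `|y| = |z|` such that
`|h z| ≤ κ |z| * |h y|`, and `gcd y` is at most `lam |z|` times the least gcd on this circle. -/
def Comparable (α : ℝ) (κ lam : ℝ → ℝ) (h : ℤ × ℤ → ℂ) : Prop :=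
  ∀ z, z ≠ 0 → Outside α z →
    ∃ y, nsq y = nsq z ∧ Low lam y ∧ ‖h z‖ ≤ κ (Real.sqrt (nsq z)) * ‖h y‖

/-- The contraction. -/
private lemma vanish (K L0 : ℝ) : ∃ s : ℕ, ∀ (w : ℤ × ℤ) (α : ℝ) (f : ℤ × ℤ → ℂ),
    Decay (2 * (s + 2)) f →
    (∀ z, z ≠ 0 → Outside α z → Low (fun _ => L0) z → xray w f z = 0) →
    (∀ z, z ≠ 0 → Outside α z → ∃ y, nsq y = nsq z ∧ Low (fun _ => L0) y ∧ ‖f z‖ ≤ K * ‖f y‖) →
    ∀ z, z ≠ 0 → Outside α z → f z = 0 := by
  set L : ℕ := ⌈L0⌉₊ with hLdef
  have hL0 : L0 ≤ (L : ℝ) := Nat.le_ceil L0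
  obtain ⟨s, c, hsc⟩ := series (max L 1) (le_max_right _ _) (1 / (2 * max K 1)) (by positivity)
  refine ⟨s, fun w α f hf hx hc => ?_⟩
  obtain ⟨C, hC0, hC⟩ := rapid hf s (by omega)
  have hK : (0 : ℝ) < max K 1 := lt_of_lt_of_le one_pos (le_max_right _ _)
  have key : ∀ j : ℕ, ∀ z, z ≠ 0 → Outside α z →
      ‖f z‖ * (nsq z : ℝ) ^ s ≤ C / 2 ^ j * (mg (nsq z) : ℝ) ^ c := by
    intro j
    induction j with
    | zero =>
      intro z hz _
      have h1 : (1 : ℝ) ≤ (mg (nsq z) : ℝ) ^ c := one_le_pow₀ (by exact_mod_cast mg_pos hz)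
      calc ‖f z‖ * (nsq z : ℝ) ^ s ≤ C := hC z hz
        _ = C / 2 ^ 0 * 1 := by ring
        _ ≤ C / 2 ^ 0 * (mg (nsq z) : ℝ) ^ c := by gcongr
    | succ j ih =>
      intro z hz hzα
      obtain ⟨y, hyz, hyL0, hyK⟩ := hc z hz hzα
      have hyL := low_mg hyL0
      simp only [hyz] at hyL
      have hy0 : y ≠ 0 := ne_zero_of_nsq hz hyz
      have hyα : Outside α y := outside_of_nsq hzα hyz
      obtain ⟨p, hp, hyp⟩ := exists_prim hy0
      have hp0 : p ≠ 0 := by
        rintro rfl
        exact not_isCoprime_zero_zero hp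
      obtain ⟨hsum, hle⟩ := norm_le hf (by omega) hy0 hp hyp (hx y hy0 hyα hyL0)
      have hg : 0 < cont y := cont_pos hy0
      have hgR : (0 : ℝ) < (cont y : ℝ) := by exact_mod_cast hg
      obtain ⟨ht1, ht2⟩ := hsc (cont y) hg
      set B : ℝ := C / 2 ^ j with hB
      have hB0 : 0 ≤ B := by positivity
      have hPR : (0 : ℝ) < (nsq p : ℝ) := by exact_mod_cast nsq_pos hp0
      have hLR : (0 : ℝ) < ((max L 1 : ℕ) : ℝ) := by
        exact_mod_cast lt_of_lt_of_le one_pos (le_max_right L 1)
      have hny : (nsq y : ℝ) = nsq p * (cont y : ℝ) ^ 2 := by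
        have : nsq y = nsq p * (cont y : ℤ) ^ 2 := by
          conv_lhs => rw [hyp]
          unfold nsq
          ring
        rw [this]
        push_cast
        ring
      -- one term
      have hterm : ∀ k : ℤ, (if k = 0 then 0 else ‖f (pt p y k)‖) * (nsq y : ℝ) ^ s ≤
          B * ((cont y : ℝ) / (max L 1 : ℕ)) ^ c * term (max L 1 : ℕ) s c (cont y) k := by
        intro k
        unfold term
        split_ifs with hk
        · rw [zero_mul, mul_zero]
        · have hq := nsq_pt hyp k
          have hq0 : 0 < nsq (pt p y k) := by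
            rw [hq]
            have := nsq_pos hp0
            have : (0 : ℤ) < (cont y : ℤ) := by exact_mod_cast hg
            positivity
          have hne : pt p y k ≠ 0 := by
            intro h0
            rw [h0] at hq0
            simp [nsq] at hq0
          have hout : Outside α (pt p y k) := by
            unfold Outside at hyα ⊢
            refine hyα.trans (Real.sqrt_le_sqrt ?_)
            rw [hq, hny]
            push_cast
            have := sq_nonneg (k : ℝ)
            nlinarith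
          have h1 := ih _ hne hout
          have h2 : (mg (nsq (pt p y k)) : ℝ) ≤ 2 * (Int.gcd (cont y) k : ℝ) := by
            exact_mod_cast mg_pt hg hp hyp k
          have hqR : (nsq (pt p y k) : ℝ) = nsq p * ((cont y : ℝ) ^ 2 + (k : ℝ) ^ 2) := by
            rw [hq]
            push_cast
            ring
          have hqpos : (0 : ℝ) < (nsq (pt p y k) : ℝ) := by exact_mod_cast hq0
          have h3 : ‖f (pt p y k)‖ ≤
              B * (2 * (Int.gcd (cont y) k : ℝ)) ^ c / (nsq (pt p y k) : ℝ) ^ s := by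
            rw [le_div_iff₀ (by positivity)]
            refine h1.trans ?_
            gcongr
          calc ‖f (pt p y k)‖ * (nsq y : ℝ) ^ s
              ≤ B * (2 * (Int.gcd (cont y) k : ℝ)) ^ c / (nsq (pt p y k) : ℝ) ^ s *
                (nsq y : ℝ) ^ s := by
                apply mul_le_mul_of_nonneg_right h3
                rw [hny]
                positivity
            _ = B * ((cont y : ℝ) / (max L 1 : ℕ)) ^ c *
                (((cont y : ℝ) ^ 2 / ((cont y : ℝ) ^ 2 + (k : ℝ) ^ 2)) ^ s *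
                (2 * (max L 1 : ℕ) * (Int.gcd (cont y) k : ℝ) / (cont y : ℝ)) ^ c) := by
                have e1 : ((cont y : ℝ) / (max L 1 : ℕ)) ^ c *
                    (2 * (max L 1 : ℕ) * (Int.gcd (cont y) k : ℝ) / (cont y : ℝ)) ^ c =
                    (2 * (Int.gcd (cont y) k : ℝ)) ^ c := by
                  rw [← mul_pow]
                  congr 1
                  field_simp
                have e2 : ((cont y : ℝ) ^ 2 / ((cont y : ℝ) ^ 2 + (k : ℝ) ^ 2)) ^ s =
                    (nsq y : ℝ) ^ s / (nsq (pt p y k) : ℝ) ^ s := by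
                  rw [← div_pow]
                  congr 1
                  rw [hny, hqR, mul_div_mul_left _ _ hPR.ne']
                rw [e2, ← e1]
                ring
      -- the sum
      have hsumle : (∑' k : ℤ, if k = 0 then 0 else ‖f (pt p y k)‖) * (nsq y : ℝ) ^ s ≤
          B * ((cont y : ℝ) / (max L 1 : ℕ)) ^ c * (1 / (2 * max K 1)) := by
        rw [← tsum_mul_right]
        calc ∑' k : ℤ, (if k = 0 then 0 else ‖f (pt p y k)‖) * (nsq y : ℝ) ^ s
            ≤ ∑' k : ℤ, B * ((cont y : ℝ) / (max L 1 : ℕ)) ^ c *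
                term (max L 1 : ℕ) s c (cont y) k :=
              (hsum.mul_right _).tsum_le_tsum hterm (ht1.mul_left _)
          _ = B * ((cont y : ℝ) / (max L 1 : ℕ)) ^ c * ∑' k : ℤ, term (max L 1 : ℕ) s c (cont y) k :=
              tsum_mul_left
          _ ≤ _ := mul_le_mul_of_nonneg_left ht2 (by positivity)
      have hmg : (cont y : ℝ) / (max L 1 : ℕ) ≤ (mg (nsq z) : ℝ) := by
        rw [div_le_iff₀ hLR, mul_comm]
        refine hyL.trans (mul_le_mul_of_nonneg_right (hL0.trans ?_) (Nat.cast_nonneg _))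
        exact_mod_cast le_max_left L 1
      calc ‖f z‖ * (nsq z : ℝ) ^ s ≤ (max K 1 * ‖f y‖) * (nsq y : ℝ) ^ s := by
            rw [hyz]
            have h0 : (0 : ℝ) ≤ (nsq z : ℝ) ^ s := by
              have : (0 : ℝ) < (nsq z : ℝ) := by exact_mod_cast nsq_pos hz
              positivity
            apply mul_le_mul_of_nonneg_right _ h0
            exact hyK.trans (mul_le_mul_of_nonneg_right (le_max_left _ _) (norm_nonneg _))
        _ ≤ max K 1 * ((∑' k : ℤ, if k = 0 then 0 else ‖f (pt p y k)‖) * (nsq y : ℝ) ^ s) := by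
            rw [mul_assoc]
            apply mul_le_mul_of_nonneg_left _ hK.le
            apply mul_le_mul_of_nonneg_right hle
            rw [hny]
            positivity
        _ ≤ max K 1 * (B * ((cont y : ℝ) / (max L 1 : ℕ)) ^ c * (1 / (2 * max K 1))) :=
            mul_le_mul_of_nonneg_left hsumle hK.le
        _ = B / 2 * ((cont y : ℝ) / (max L 1 : ℕ)) ^ c := by
            field_simp
        _ ≤ B / 2 * (mg (nsq z) : ℝ) ^ c := by
            apply mul_le_mul_of_nonneg_left _ (by positivity)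
            exact pow_le_pow_left₀ (by positivity) hmg c
        _ = C / 2 ^ (j + 1) * (mg (nsq z) : ℝ) ^ c := by
            rw [hB, pow_succ]
            ring
  intro z hz hzα
  have hlim : Filter.Tendsto (fun j : ℕ => C / 2 ^ j * (mg (nsq z) : ℝ) ^ c) Filter.atTop
      (nhds (0 * (mg (nsq z) : ℝ) ^ c)) := by
    apply Filter.Tendsto.mul_const
    have h := (tendsto_pow_atTop_nhds_zero_of_lt_one (show (0 : ℝ) ≤ 1 / 2 by norm_num)
      (by norm_num)).const_mul C
    rw [mul_zero] at h
    refine h.congr fun j => ?_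
    rw [one_div, inv_pow, div_eq_mul_inv]
  have h1 : ‖f z‖ * (nsq z : ℝ) ^ s ≤ 0 * (mg (nsq z) : ℝ) ^ c :=
    ge_of_tendsto' hlim fun j => key j z hz hzα
  rw [zero_mul] at h1
  have h2 : (0 : ℝ) < (nsq z : ℝ) ^ s := by
    have : (0 : ℝ) < (nsq z : ℝ) := by exact_mod_cast nsq_pos hz
    positivity
  have h3 : ‖f z‖ ≤ 0 := by
    by_contra hcon
    exact absurd h1 (not_le.2 (mul_pos (not_le.1 hcon) h2))
  exact norm_le_zero_iff.1 h3

private lemma cond_of {α : ℝ} {κ lam κ' : ℝ → ℝ} {h : ℤ × ℤ → ℂ}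
    (h2 : ∀ r, 1 ≤ r → 1 ≤ lam r) (h3 : ∀ r, 1 ≤ r → κ r ≤ κ' r) (h4 : ∀ r, 1 ≤ r → 1 ≤ κ' r)
    (H : Radial h ∨ SmallGcd α lam h ∨ Comparable α κ lam h) :
    ∀ z, z ≠ 0 → Outside α z → ∃ y, nsq y = nsq z ∧ Low lam y ∧
      ‖h z‖ ≤ κ' (Real.sqrt (nsq z)) * ‖h y‖ := by
  intro z hz hzα
  have hr : 1 ≤ Real.sqrt (nsq z) := by
    rw [Real.one_le_sqrt]
    exact_mod_cast nsq_pos hz
  have hl := h2 _ hr
  have hk := h4 _ hr
  obtain ⟨y0, hy0, hy0'⟩ := mg_mem z
  have hy1 : Low lam y0 := by
    intro x hx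
    rw [hy0', hy0, ← hy0, ← hx]
    rw [← hx] at hy0
    have h1 : (mg (nsq x) : ℝ) ≤ (cont x : ℝ) := by exact_mod_cast mg_le x
    have h5 : 1 ≤ lam (Real.sqrt (nsq x)) := by
      rw [hy0]
      exact hl
    exact h1.trans (le_mul_of_one_le_left (by positivity) h5)
  rcases H with H | H | H
  · refine ⟨y0, hy0, hy1, ?_⟩
    rw [H z y0 hy0.symm]
    exact le_mul_of_one_le_left (norm_nonneg _) hk
  · by_cases hfg : h z = 0
    · refine ⟨y0, hy0, hy1, ?_⟩
      rw [hfg, norm_zero]
      exact mul_nonneg (zero_le_one.trans hk) (norm_nonneg _)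
    · refine ⟨z, rfl, fun x hx => ?_, le_mul_of_one_le_left (norm_nonneg _) hk⟩
      have h1 : (1 : ℝ) ≤ (cont x : ℝ) := by exact_mod_cast cont_pos (ne_zero_of_nsq hz hx)
      exact (H z hzα hfg).trans (le_mul_of_one_le_right (by linarith) h1)
  · obtain ⟨y, hy, hy2, hy3⟩ := H z hz hzα
    exact ⟨y, hy, hy2, hy3.trans (mul_le_mul_of_nonneg_right (h3 _ hr) (norm_nonneg _))⟩

/-- (1) For all `K` and `L ≥ 1` there is `M` such that the values of the discrete X-ray transform
on the lines `γ_z`, `|z| ≥ α`, for which `gcd z` is at most `L` times the least gcd on the circle of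
`z`, determine `f` on `A_α` among the functions that are `O(|x| ^ (-M))`, if the difference
`h` of the two functions is radial, or is supported on points of gcd at most `L`, or is comparable
on circles to its values at the points of small gcd, with the constants `K`, `L`.
(2) The same for functions that are `O(exp (-|x| ^ θ))`, `θ > θ' + 2 * ρ`, with `L * |z| ^ ρ` in
place of `L`, if `h` is supported on points `z` of gcd at most `L * |z| ^ ρ`, or is comparable on
circles, with `K * exp (|z| ^ θ')`, `L * |z| ^ ρ` in place of the constants. -/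
theorem result :
    (∀ K L : ℝ, 1 ≤ L → ∃ M : ℕ, ∀ (w : ℤ × ℤ) (α : ℝ) (f g : ℤ × ℤ → ℂ), w ≠ 0 → 0 ≤ α →
      Decay M f → Decay M g →
      (∀ z, Outside α z → Low (fun _ => L) z → xray w f z = xray w g z) →
      (Radial (fun z => f z - g z) ∨ SmallGcd α (fun _ => L) (fun z => f z - g z) ∨
        Comparable α (fun _ => K) (fun _ => L) fun z => f z - g z) →
      ∀ z, Outside α z → f z = g z) ∧
    (∀ θ θ' ρ K L : ℝ, 1 ≤ L → 0 ≤ θ' → 0 ≤ ρ → θ' + 2 * ρ < θ →
      ∀ (w : ℤ × ℤ) (α : ℝ) (f g : ℤ × ℤ → ℂ), w ≠ 0 → 0 ≤ α →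
      ExpDecay θ f → ExpDecay θ g →
      (∀ z, Outside α z → Low (fun r => L * r ^ ρ) z → xray w f z = xray w g z) →
      (SmallGcd α (fun r => L * r ^ ρ) (fun z => f z - g z) ∨
        Comparable α (fun r => K * Real.exp (r ^ θ')) (fun r => L * r ^ ρ) fun z => f z - g z) →
      ∀ z, Outside α z → f z = g z) := by
  constructor
  · intro K L hL
    obtain ⟨s, hs⟩ := vanish (max K 1) L
    refine ⟨2 * (s + 2), fun w α f g _ hα hf hg hx h => ?_⟩
    have hsub : ∀ z, Outside α z → Low (fun _ => L) z → xray w (fun y => f y - g y) z = 0 :=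
      fun z hz hz' => xray_sub (by omega) hf hg (hx z hz hz')
    exact conclude hα (fun h0 => hsub 0 h0 low_zero) (hs w α _ (decay_sub hf hg) (fun z _ hz => hsub z hz)
      (cond_of (κ' := fun _ => max K 1) (fun _ _ => hL) (fun r _ => le_max_left _ _)
        (fun r _ => le_max_right _ _) h))
  · intro θ θ' ρ K L hL h0 hρ hθ w α f g _ hα hf hg hx h
    have hθ0 : 0 < θ := by linarith
    have hsub : ∀ z, Outside α z → Low (fun r => L * r ^ ρ) z →
        xray w (fun y => f y - g y) z = 0 := fun z hz hz' =>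
      xray_sub le_rfl (decay_of hθ0 hf _) (decay_of hθ0 hg _) (hx z hz hz')
    refine conclude hα (fun h0 => hsub 0 h0 low_zero) (stretched (K := max K 1) (L := L) h0 hρ hθ
      (exp_decay_sub hf hg) (fun z _ hz => hsub z hz)
      (cond_of (κ' := fun r => max K 1 * Real.exp (r ^ θ'))
        (fun r hr => ?_) (fun r hr => ?_) (fun r hr => ?_) (Or.inr h)))
    · exact one_le_mul_of_one_le_of_one_le hL (Real.one_le_rpow hr hρ)
    · exact mul_le_mul_of_nonneg_right (le_max_left _ _) (Real.exp_pos _).le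
    · refine one_le_mul_of_one_le_of_one_le (le_max_right _ _) (Real.one_le_exp ?_)
      exact Real.rpow_nonneg (by linarith) _

end Pool.Agent.Results.MP_4bc625_an.ComparableOnCircles
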