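import Mathlib
import Pool.Agent.H57.XR.Chc
import Pool.Agent.H57.XR.Gsh

/-!
Discrete X-ray transform, perpendicular lines: uniqueness outside every disc for functions with
`f(x) = O(exp(-c |x|^b))`, `b > 799/800`; in particular for exponentially decreasing functions.
-/

namespace Pool.Agent.Results.MP_4bc625_an.ExponentialDecay

open Pool.Agent.H57.XR

/-- Two functions of size `O(exp(-c |x|^b))`, `c > 0`, `b > 799/800`, with the same line sums on
all `gamma_z`, `|z| ≥ α`, are equal at all lattice points of length at least `α`. -/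
theorem result (w : ℤ × ℤ) (α b c C : ℝ) (hb : 799 / 800 < b) (hc : 0 < c)
    (f g : ℤ × ℤ → ℂ) (hf : ∀ x, ‖f x‖ ≤ C * Real.exp (-(c * len x ^ b)))
    (hg : ∀ x, ‖g x‖ ≤ C * Real.exp (-(c * len x ^ b)))
    (h : ∀ z, α ≤ len z → xray w f z = xray w g z) :
    ∀ z, α ≤ len z → f z = g z :=
  uniqueness_pair_of_len (μ := 799 / 1600) (by norm_num) len_saving (by linarith) hc hf hg h

end Pool.Agent.Results.MP_4bc625_an.ExponentialDecay
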