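import Mathlib
import Pool.Agent.H57.XR.Exa

/-!
Discrete X-ray transform, perpendicular lines: uniqueness fails for functions of size `|x|^(-2)`.
-/

namespace Pool.Agent.Results.MP_4bc625_an.QuadraticDecay

open Pool.Agent.H57.XR

/-- There is one function `f` on the lattice with `|f(x)| ≤ |x|^(-2)`, absolutely summable on
every `gamma_z`, `z ≠ 0`, with `P f (gamma_z) = 0` for all `z ≠ 0`, which does not vanish
identically outside any disc. -/
theorem result : ∃ f : ℤ × ℤ → ℂ, (∀ x, len x ^ 2 * ‖f x‖ ≤ 1) ∧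
    (∀ w z : ℤ × ℤ, z ≠ 0 →
      Summable (fun y : {y : ℤ × ℤ // OnLine w z y} => f y) ∧ xray w f z = 0) ∧
    ∀ α : ℝ, ∃ z, α ≤ len z ∧ f z ≠ 0 :=
  ⟨ex, norm_ex, fun _ _ hz => row_ex hz, ex_large⟩

end Pool.Agent.Results.MP_4bc625_an.QuadraticDecay
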