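import Mathlib
import Pool.Agent.H57.XR.Alp

/-!
Discrete X-ray transform, perpendicular lines: the answer to Q1 is the same for all `α ≥ 0`.
-/

namespace Pool.Agent.Results.MP_4bc625_an.RadiusIndependence

open Pool.Agent.H57.XR

/-- The uniqueness statement of Q1 for one value of `α` is equivalent to the one for any other
value (and any directions of the line `gamma_0`). -/
theorem result (w w' : ℤ × ℤ) (α β : ℝ) (hα : 0 ≤ α) (hβ : 0 ≤ β) :
    Uniqueness w α ↔ Uniqueness w' β :=
  uniqueness_iff hα hβ

end Pool.Agent.Results.MP_4bc625_an.RadiusIndependence
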